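import Pool.Agent.H874LT.Lower

open Filter Pool.Agent.H874LT

namespace Pool.Agent.Results.MP_b88b3b_an.LowerBound

/-- For all large `n`, `μ_n ≥ exp (-2.4518 √n)`. -/
theorem result : ∀ᶠ n : ℕ in atTop, Real.exp (-(2.4518 * Real.sqrt n)) ≤ mu n := by
  filter_upwards [lower_event] with n hn
  exact le_mu n _ hn

end Pool.Agent.Results.MP_b88b3b_an.LowerBound
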