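import Pool.Agent.H874LT.Upper3

open Filter Pool.Agent.H874LT

namespace Pool.Agent.Results.MP_b88b3b_an.UpperBound

/-- For all large `n`, `μ_n ≤ exp (-1.3658 √n)`. -/
theorem result : ∀ᶠ n : ℕ in atTop, mu n ≤ Real.exp (-(1.3658 * Real.sqrt n)) :=
  upper_event

end Pool.Agent.Results.MP_b88b3b_an.UpperBound
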